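import Pool.Agent.H29.FL4.Stmts

/-! Row SIE of board fl4: the sieve. -/

set_option autoImplicit false

namespace Pool.FL4

namespace SIEH

/-- the admissible residues -/
def A (N : ℕ) : Finset ℕ := (Finset.range N).filter fun s => Nat.Coprime (s ^ 2 + 1) N

theorem mem_A (N s : ℕ) : s ∈ A N ↔ s < N ∧ Nat.Coprime (s ^ 2 + 1) N := by
  unfold A
  rw [Finset.mem_filter, Finset.mem_range]

theorem cop_congr {N s u : ℕ} (h : s ≡ u [MOD N]) :
    Nat.Coprime (s ^ 2 + 1) N ↔ Nat.Coprime (u ^ 2 + 1) N := by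
  have h1 : s ^ 2 + 1 ≡ u ^ 2 + 1 [MOD N] := (h.pow 2).add_right 1
  unfold Nat.Coprime
  rw [h1.gcd_eq]

theorem mul_le {a b : ℕ} (ha : 1 < a) (hb : 1 < b) (hab : Nat.Coprime a b) :
    (A a).card * (A b).card ≤ (A (a * b)).card := by
  rw [← Finset.card_product]
  refine Finset.card_le_card_of_injOn (fun q => (Nat.chineseRemainder hab q.1 q.2 : ℕ)) ?_ ?_
  · rintro ⟨u, w⟩ hq
    rw [Finset.mem_coe, Finset.mem_product, mem_A, mem_A] at hq
    rw [Finset.mem_coe, mem_A]
    have h1 := (Nat.chineseRemainder hab u w).2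
    refine ⟨Nat.chineseRemainder_lt_mul hab u w (by omega) (by omega), ?_⟩
    exact Nat.Coprime.mul_right ((cop_congr h1.1).2 hq.1.2) ((cop_congr h1.2).2 hq.2.2)
  · rintro ⟨u, w⟩ hq ⟨u', w'⟩ hq' h
    rw [Finset.mem_coe, Finset.mem_product, mem_A, mem_A] at hq hq'
    simp only at h hq hq'
    have h1 := (Nat.chineseRemainder hab u w).2
    have h2 := (Nat.chineseRemainder hab u' w').2
    rw [← h] at h2
    have e1 : u ≡ u' [MOD a] := h1.1.symm.trans h2.1
    have e2 : w ≡ w' [MOD b] := h1.2.symm.trans h2.2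
    exact Prod.ext (e1.eq_of_lt_of_lt hq.1.1 hq'.1.1) (e2.eq_of_lt_of_lt hq.2.1 hq'.2.1)

theorem roots_le {p : ℕ} (hp : p.Prime) :
    ((Finset.range p).filter fun s => p ∣ s ^ 2 + 1).card ≤ 2 := by
  rcases ((Finset.range p).filter fun s => p ∣ s ^ 2 + 1).eq_empty_or_nonempty with h | ⟨a, ha⟩
  · rw [h]
    simp
  · refine le_trans (Finset.card_le_card (t := {a, p - a}) fun b hb => ?_) Finset.card_le_two
    rw [Finset.mem_filter, Finset.mem_range] at ha hb
    rw [Finset.mem_insert, Finset.mem_singleton]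
    have h1 : (p : ℤ) ∣ ((b : ℤ) - a) * (b + a) := by
      have h2 : (p : ℤ) ∣ (b : ℤ) ^ 2 + 1 := by exact_mod_cast hb.2
      have h3 : (p : ℤ) ∣ (a : ℤ) ^ 2 + 1 := by exact_mod_cast ha.2
      have h4 := dvd_sub h2 h3
      have h5 : ((b : ℤ) - a) * (b + a) = (b : ℤ) ^ 2 + 1 - ((a : ℤ) ^ 2 + 1) := by ring
      rw [h5]
      exact h4
    rcases (Nat.prime_iff_prime_int.1 hp).dvd_or_dvd h1 with h2 | h2
    · left
      obtain ⟨c, hc⟩ := h2
      have hlt1 : (b : ℤ) < p := by exact_mod_cast hb.1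
      have hlt2 : (a : ℤ) < p := by exact_mod_cast ha.1
      have h3 : c = 0 := by
        by_contra hne
        rcases lt_or_gt_of_ne hne with h4 | h4
        · nlinarith
        · nlinarith
      rw [h3, mul_zero] at hc
      omega
    · right
      have h3 : p ∣ b + a := by exact_mod_cast h2
      obtain ⟨c, hc⟩ := h3
      have hpos : 0 < p := hp.pos
      have hc2 : c < 2 := by
        by_contra hcc
        have : 2 * p ≤ p * c := by nlinarith
        omega
      have hc0 : c ≠ 0 := by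
        rintro rfl
        have hb0 : b = 0 := by omega
        have := hb.2
        rw [hb0] at this
        have h5 : p ∣ 1 := by simpa using this
        exact hp.one_lt.ne' (Nat.dvd_one.1 h5)
      have hc1 : c = 1 := by omega
      rw [hc1, mul_one] at hc
      omega

theorem bad_le {p n : ℕ} (hp : p.Prime) :
    ((Finset.range (p ^ (n + 1))).filter fun s => p ∣ s ^ 2 + 1).card ≤
      ((Finset.range p).filter fun s => p ∣ s ^ 2 + 1).card * p ^ n := by
  rw [← Finset.card_range (p ^ n), ← Finset.card_product]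
  refine Finset.card_le_card_of_injOn (fun s => (s % p, s / p)) ?_ ?_
  · intro s hs
    rw [Finset.mem_coe, Finset.mem_filter, Finset.mem_range] at hs
    rw [Finset.mem_coe, Finset.mem_product, Finset.mem_filter, Finset.mem_range, Finset.mem_range]
    refine ⟨⟨Nat.mod_lt _ hp.pos, ?_⟩, ?_⟩
    · have h1 : s % p ≡ s [MOD p] := Nat.mod_modEq s p
      have h2 : (s % p) ^ 2 + 1 ≡ s ^ 2 + 1 [MOD p] := (h1.pow 2).add_right 1
      exact (h2.dvd_iff dvd_rfl).2 hs.2
    · exact Nat.div_lt_of_lt_mul (by rw [← pow_succ']; exact hs.1)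
  · intro s _ s' _ h
    have h1 : s % p = s' % p := congrArg Prod.fst h
    have h2 : s / p = s' / p := congrArg Prod.snd h
    rw [← Nat.mod_add_div s p, h1, h2, Nat.mod_add_div]

theorem card_ppow {p n : ℕ} (hp : p.Prime) :
    p ^ (n + 1) ≤ (A (p ^ (n + 1))).card +
      ((Finset.range p).filter fun s => p ∣ s ^ 2 + 1).card * p ^ n := by
  have h1 : (A (p ^ (n + 1))).card +
      ((Finset.range (p ^ (n + 1))).filter fun s => p ∣ s ^ 2 + 1).card = p ^ (n + 1) := by
    have h2 : A (p ^ (n + 1)) =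
        (Finset.range (p ^ (n + 1))).filter fun s => ¬ p ∣ s ^ 2 + 1 := by
      unfold A
      refine Finset.filter_congr fun s _ => ?_
      rw [Nat.coprime_pow_right_iff (Nat.succ_pos n), Nat.coprime_comm,
        hp.coprime_iff_not_dvd]
    rw [h2, add_comm, Finset.card_filter_add_card_filter_not, Finset.card_range]
  have := bad_le (n := n) hp
  omega

theorem ppow {p n : ℕ} (hp : p.Prime) (hodd : p ≠ 2) :
    p ^ (n + 1) ≤ (A (p ^ (n + 1))).card ^ 2 := by
  have h0 := card_ppow (n := n) hp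
  have hpos : 0 < p ^ n := pow_pos hp.pos n
  have hp3 : 3 ≤ p := by
    have := hp.two_le
    omega
  by_cases h3 : p = 3
  · have h1 : ((Finset.range p).filter fun s => p ∣ s ^ 2 + 1).card = 0 := by
      rw [h3]
      decide
    rw [h1, zero_mul, add_zero] at h0
    have h2 : 1 ≤ p ^ (n + 1) := Nat.one_le_pow _ _ hp.pos
    nlinarith
  · have hp5 : 4 ≤ p := by omega
    have h1 := roots_le hp
    have h2 : ((Finset.range p).filter fun s => p ∣ s ^ 2 + 1).card * p ^ n ≤ 2 * p ^ n :=
      Nat.mul_le_mul_right _ h1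
    have h4 : p ^ n * (p - 2) ≤ (A (p ^ (n + 1))).card := by
      have h5 : p ^ (n + 1) = p ^ n * (p - 2) + 2 * p ^ n := by
        obtain ⟨m, hm⟩ : ∃ m, p = m + 2 := ⟨p - 2, by omega⟩
        have h6 : p - 2 = m := by omega
        rw [h6, pow_succ]
        conv_lhs => rw [show p ^ n * p = p ^ n * (m + 2) by rw [← hm]]
        ring
      omega
    have h5 : p ≤ (p - 2) ^ 2 := by
      obtain ⟨m, hm⟩ : ∃ m, p = m + 4 := ⟨p - 4, by omega⟩
      have h6 : p - 2 = m + 2 := by omega
      rw [h6, hm]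
      nlinarith
    calc p ^ (n + 1) = p ^ n * p := pow_succ p n
      _ ≤ p ^ n * (p ^ n * (p - 2) ^ 2) := by
        refine Nat.mul_le_mul_left _ (h5.trans ?_)
        exact Nat.le_mul_of_pos_left _ hpos
      _ = (p ^ n * (p - 2)) ^ 2 := by ring
      _ ≤ (A (p ^ (n + 1))).card ^ 2 := Nat.pow_le_pow_left h4 2

theorem main (N : ℕ) : Odd N → N ≤ (A N).card ^ 2 := by
  induction N using Nat.recOnPosPrimePosCoprime with
  | prime_pow p n hp hn =>
    intro hodd
    obtain ⟨m, rfl⟩ : ∃ m, n = m + 1 := ⟨n - 1, by omega⟩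
    refine ppow hp ?_
    rintro rfl
    rw [Nat.odd_pow_iff (Nat.succ_ne_zero m)] at hodd
    exact absurd hodd (by decide)
  | zero => intro h; exact absurd h (by decide)
  | one => intro _; decide
  | coprime a b ha hb hab iha ihb =>
    intro hodd
    rw [Nat.odd_mul] at hodd
    have h1 := iha hodd.1
    have h2 := ihb hodd.2
    have h3 := mul_le ha hb hab
    calc a * b ≤ (A a).card ^ 2 * (A b).card ^ 2 := Nat.mul_le_mul h1 h2
      _ = ((A a).card * (A b).card) ^ 2 := by ring
      _ ≤ _ := Nat.pow_le_pow_left h3 2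

end SIEH

theorem sie : SIEStmt := fun N hN => SIEH.main N hN

end Pool.FL4
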